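import Pool.Agent.V5helper43.NC.Stm

set_option autoImplicit false

/-! Project NC, job MIX (helper55) -/

open Finset

namespace Pool.Agent.V5helper55.NC

open Pool.Agent.V5helper43.NC

open Classical in
/-- the pairs with sum `n`, as a finset -/
noncomputable def prs (A B : Set ℕ) (n : ℕ) : Finset (ℕ × ℕ) :=
  (antidiagonal n).filter (fun p => p.1 ∈ A ∧ p.2 ∈ B)

lemma mem_prs {A B : Set ℕ} {n : ℕ} {p : ℕ × ℕ} : p ∈ prs A B n ↔ p.1 ∈ A ∧ p.2 ∈ B ∧ p.1 + p.2 = n := by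
  classical
  unfold prs
  simp only [mem_filter, HasAntidiagonal.mem_antidiagonal]
  tauto

lemma rep2_eq (A B : Set ℕ) (n : ℕ) : rep2 A B n = (prs A B n).card := by
  unfold rep2
  rw [← Set.ncard_coe_finset]
  congr 1
  ext p
  exact mem_prs.symm

lemma rep2_pos {A B : Set ℕ} {n : ℕ} : rep2 A B n = 0 ↔ ¬ ∃ a ∈ A, ∃ b ∈ B, a + b = n := by
  rw [rep2_eq, card_eq_zero]
  constructor
  · rintro h ⟨a, ha, b, hb, hab⟩
    have : (a, b) ∈ prs A B n := mem_prs.2 ⟨ha, hb, hab⟩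
    rw [h] at this
    simp at this
  · intro h
    rw [eq_empty_iff_forall_notMem]
    intro p hp
    obtain ⟨h1, h2, h3⟩ := mem_prs.1 hp
    exact h ⟨p.1, h1, p.2, h2, h3⟩

lemma sum_rep2 (A B : Set ℕ) (N : ℕ) :
    ∑ n ∈ range N, rep2 A B n = {p : ℕ × ℕ | p.1 ∈ A ∧ p.2 ∈ B ∧ p.1 + p.2 < N}.ncard := by
  classical
  have h : {p : ℕ × ℕ | p.1 ∈ A ∧ p.2 ∈ B ∧ p.1 + p.2 < N} =
      (((range N).biUnion (fun n => prs A B n) : Finset (ℕ × ℕ)) : Set (ℕ × ℕ)) := by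
    ext p
    rw [mem_coe, mem_biUnion]
    constructor
    · rintro ⟨h1, h2, h3⟩
      exact ⟨p.1 + p.2, mem_range.2 h3, mem_prs.2 ⟨h1, h2, rfl⟩⟩
    · rintro ⟨n, h1, h2⟩
      obtain ⟨h3, h4, h5⟩ := mem_prs.1 h2
      exact ⟨h3, h4, by rw [h5]; exact mem_range.1 h1⟩
  rw [h, Set.ncard_coe_finset, card_biUnion]
  · exact sum_congr rfl fun n _ => rep2_eq A B n
  · intro i _ j _ hij
    rw [Function.onFun, disjoint_left]
    intro p hp hp'
    have h1 := (mem_prs.1 hp).2.2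
    have h2 := (mem_prs.1 hp').2.2
    exact hij (by omega)

theorem t_MIX (h1 : S_PAIRS) (h2 : S_UNC) : S_MIX := by
  classical
  intro π S j k hk1 hk2
  have hp := h1 π S (4 ^ k)
  have hu := h2 π S j k hk1 hk2
  obtain ⟨N, hN⟩ : ∃ N, N = 4 ^ k := ⟨_, rfl⟩
  obtain ⟨f, hf⟩ : ∃ f : ℕ → ℕ, f = rep2 (S.A0 true) (S.A0 false) := ⟨_, rfl⟩
  rw [← sum_rep2, ← hf, ← hN] at hp
  have eU : {n | n < 4 ^ k ∧ ¬ ∃ a ∈ S.A0 true, ∃ b ∈ S.A0 false, a + b = n} =
      (((range N).filter (fun n => f n = 0) : Finset ℕ) : Set ℕ) := by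
    ext n
    simp only [Set.mem_ofPred_eq, coe_filter, mem_range, hN, hf, rep2_pos]
  have eW : {n | n < 4 ^ k ∧ rep2 (S.A0 true) (S.A0 false) n ≠ 1} =
      (((range N).filter (fun n => f n ≠ 1) : Finset ℕ) : Set ℕ) := by
    ext n
    simp only [Set.mem_ofPred_eq, coe_filter, mem_range, hN, hf]
  rw [eU, Set.ncard_coe_finset] at hu
  rw [eW, Set.ncard_coe_finset]
  have key : ∑ n ∈ range N, (if f n ≠ 1 then 1 else 0) ≤
      ∑ n ∈ range N, (if f n = 0 then 1 else 0) + ∑ n ∈ range N, (if 2 ≤ f n then 1 else 0) := by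
    rw [← sum_add_distrib]
    apply sum_le_sum
    intro n _
    split_ifs <;> omega
  have key2 : ∑ _n ∈ range N, 1 + ∑ n ∈ range N, (if 2 ≤ f n then 1 else 0) ≤
      ∑ n ∈ range N, f n + ∑ n ∈ range N, (if f n = 0 then 1 else 0) := by
    rw [← sum_add_distrib, ← sum_add_distrib]
    apply sum_le_sum
    intro n _
    split_ifs <;> omega
  rw [sum_const, card_range, smul_eq_mul, mul_one] at key2
  simp only [← card_filter] at key key2
  have h3 : ((range N).filter (fun n => f n ≠ 1)).card ≤ 2 * ((range N).filter (fun n => f n = 0)).card := by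
    omega
  calc ((range N).filter (fun n => f n ≠ 1)).card * 4 ^ π.l j
      ≤ 2 * ((range N).filter (fun n => f n = 0)).card * 4 ^ π.l j := Nat.mul_le_mul_right _ h3
    _ = 2 * (((range N).filter (fun n => f n = 0)).card * 4 ^ π.l j) := by ring
    _ ≤ 2 * (20 * 4 ^ k) := Nat.mul_le_mul_left _ hu
    _ = 40 * 4 ^ k := by ring

end Pool.Agent.V5helper55.NC
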