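import Pool.Agent.V5helper55.NC.MIX
import Pool.Agent.Results.MP_12a1af_nt.SingularSpectrum

set_option autoImplicit false

/-! Project NC, job OPT (helper55) -/

open Finset Filter Topology MeasureTheory

namespace Pool.Agent.V5helper55.NC

open Pool.Agent.V5helper43.NC

lemma rep_eq_rep2 (A : Set ℕ) (n : ℕ) : rep A n = rep2 A A n := rfl

/-- a basis of order 2 is infinite -/
lemma basis_infinite {A : Set ℕ} {n₀ : ℕ} (h : ∀ n, n₀ ≤ n → 1 ≤ rep A n) : A.Infinite := by
  by_contra hcon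
  rw [Set.not_infinite] at hcon
  obtain ⟨M, hM⟩ := hcon.bddAbove
  have h1 := h (n₀ + 2 * M + 1) (by omega)
  rw [rep_eq_rep2] at h1
  have h2 : ∃ a ∈ A, ∃ b ∈ A, a + b = n₀ + 2 * M + 1 := by
    by_contra hc
    rw [← rep2_pos] at hc
    omega
  obtain ⟨a, ha, b, hb, hab⟩ := h2
  have h3 := hM ha
  have h4 := hM hb
  omega

/-- a basis of order 2 has `a_n ≤ (n₀ + 1) n²` -/
lemma basis_nth {A : Set ℕ} {n₀ : ℕ} (h : ∀ n, n₀ ≤ n → 1 ≤ rep A n) (k : ℕ) :
    Nat.nth (· ∈ A) k ≤ k ^ 2 + n₀ := by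
  classical
  have hinf : (Set.ofPred (· ∈ A)).Infinite := basis_infinite h
  obtain ⟨x, hx⟩ : ∃ x, x = Nat.nth (· ∈ A) k := ⟨_, rfl⟩
  rw [← hx]
  have hc : ((range x).filter (· ∈ A)).card = k := by
    have h1 := Nat.count_nth_of_infinite hinf k
    rw [Nat.count_eq_card_filter_range, ← hx] at h1
    exact h1
  obtain ⟨T, hT⟩ : ∃ T, T = (range x).filter (· ∈ A) := ⟨_, rfl⟩
  rw [← hT] at hc
  have hsub : Ico n₀ x ⊆ (T ×ˢ T).image (fun p : ℕ × ℕ => p.1 + p.2) := by
    intro n hn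
    rw [mem_Ico] at hn
    have h1 := h n hn.1
    have h2 : ∃ a ∈ A, ∃ b ∈ A, a + b = n := by
      by_contra hc
      rw [← rep2_pos, ← rep_eq_rep2] at hc
      omega
    obtain ⟨a, ha, b, hb, hab⟩ := h2
    rw [mem_image]
    refine ⟨(a, b), ?_, hab⟩
    rw [mem_product, hT, mem_filter, mem_filter, mem_range, mem_range]
    exact ⟨⟨by omega, ha⟩, ⟨by omega, hb⟩⟩
  have h2 := (card_le_card hsub).trans card_image_le
  rw [Nat.card_Ico, card_product, hc] at h2
  rw [pow_two]
  omega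

/-- constant functions have singular spectrum -/
lemma sing_const : Pool.Agent.Results.MP_12a1af_nt.SingularSpectrum.SingSpec (fun _ => 2) := by
  have : Fact (0 < 2 * Real.pi) := Fact.mk Real.two_pi_pos
  refine ⟨(4 : NNReal) • Measure.dirac (0 : AddCircle (2 * Real.pi)), inferInstance, ?_, ?_⟩
  · have h1 : Measure.MutuallySingular (Measure.dirac (0 : AddCircle (2 * Real.pi))) volume := by
      refine ⟨{0}ᶜ, (measurableSet_singleton _).compl, ?_, ?_⟩
      · rw [Measure.dirac_apply' _ (measurableSet_singleton _).compl]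
        simp
      · rw [compl_compl]
        have h0 := AddCircle.volume_closedBall (T := 2 * Real.pi) (x := 0) 0
        rw [Metric.closedBall_zero] at h0
        rw [h0, mul_zero, min_eq_right Real.two_pi_pos.le, ENNReal.ofReal_zero]
    exact h1.smul _
  · intro k
    have h2 : (∫ x, (fourier (k : ℤ) x : ℂ) ∂((4 : NNReal) • Measure.dirac (0 : AddCircle (2 * Real.pi)))) = 4 := by
      rw [integral_smul_nnreal_measure, integral_dirac, NNReal.smul_def]
      simp
    rw [h2]
    refine tendsto_const_nhds.congr' ?_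
    filter_upwards [eventually_gt_atTop 0] with N hN
    have hN' : (N : ℝ) ≠ 0 := by positivity
    rw [sum_const, card_range, nsmul_eq_mul]
    have : ((N : ℝ) * (2 * 2)) / N = 4 := by
      field_simp
      norm_num
    rw [this]
    norm_num

theorem t_OPT : S_OPT := by
  classical
  intro A n₀ F hA hFm hF2 hrF hcon
  have hinf := basis_infinite hA
  have hcon' : ∀ᶠ x : ℕ in atTop, ((({n | n < x ∧ rep A n ≠ 2} : Set ℕ).ncard : ℕ) : ℝ) < (x : ℝ) / (4 * F x ^ 2) := by
    filter_upwards [hcon] with x hx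
    exact not_le.1 hx
  -- the mean square distance
  have hD : ∀ᶠ N : ℕ in atTop, ∑ n ∈ range N, ((rep A n : ℝ) - 2) ^ 2 ≤ (N : ℝ) / 4 := by
    filter_upwards [hcon'] with N hN
    have hF0 : 0 < F N := by linarith [hF2 N]
    have e1 : {n | n < N ∧ rep A n ≠ 2} = (((range N).filter (fun n => rep A n ≠ 2) : Finset ℕ) : Set ℕ) := by
      ext n
      simp only [Set.mem_ofPred_eq, coe_filter, mem_range]
    rw [e1, Set.ncard_coe_finset, lt_div_iff₀ (by positivity)] at hN
    have h1 : ∀ n ∈ range N, ((rep A n : ℝ) - 2) ^ 2 ≤ if rep A n ≠ 2 then F N ^ 2 else 0 := by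
      intro n hn
      rw [mem_range] at hn
      split_ifs with h
      · have h2 := hFm hn.le
        have h3 := hrF n
        have h4 := hF2 n
        have h5 : (0 : ℝ) ≤ rep A n := Nat.cast_nonneg _
        exact sq_le_sq' (by linarith) (by linarith)
      · push Not at h
        rw [h]
        norm_num
    have h2 := sum_le_sum h1
    rw [← sum_filter, sum_const, nsmul_eq_mul] at h2
    refine h2.trans ?_
    linarith
  have hS : ∀ᶠ N : ℕ in atTop, (N : ℝ) / 2 ≤ ∑ n ∈ range N, (rep A n : ℝ) := by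
    filter_upwards [eventually_ge_atTop (2 * n₀)] with N hN
    have h1 : ∑ n ∈ range N, (if n₀ ≤ n then (1 : ℝ) else 0) ≤ ∑ n ∈ range N, (rep A n : ℝ) := by
      apply sum_le_sum
      intro n _
      split_ifs with h
      · exact_mod_cast hA n h
      · exact Nat.cast_nonneg _
    refine le_trans ?_ h1
    rw [← sum_filter, sum_const, nsmul_eq_mul, mul_one]
    have h2 : (range N).filter (fun n => n₀ ≤ n) = Ico n₀ N := by
      ext n
      rw [mem_filter, mem_range, mem_Ico]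
      tauto
    rw [h2, Nat.card_Ico]
    have h3 : (N : ℝ) / 2 ≤ ((N - n₀ : ℕ) : ℝ) := by
      rw [Nat.cast_sub (by omega)]
      have h4 : (2 * n₀ : ℝ) ≤ N := by exact_mod_cast hN
      linarith
    exact h3
  have key := (Pool.Agent.Results.MP_12a1af_nt.SingularSpectrum.result.1 A (n₀ + 1) (1 / 2) (fun _ => 2) hinf
    (by
      intro n hn
      unfold Pool.Agent.Results.MP_12a1af_nt.SingularSpectrum.elt
      have h1 := basis_nth hA (n - 1)
      have h2 : ((Nat.nth (· ∈ A) (n - 1) : ℕ) : ℝ) ≤ ((n - 1 : ℕ) : ℝ) ^ 2 + n₀ := by exact_mod_cast h1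
      have h3 : ((n - 1 : ℕ) : ℝ) ≤ n := by exact_mod_cast Nat.sub_le n 1
      have h4 : (1 : ℝ) ≤ n := by exact_mod_cast hn
      have h5 : (0 : ℝ) ≤ ((n - 1 : ℕ) : ℝ) := Nat.cast_nonneg _
      have h6 : (0 : ℝ) ≤ n₀ := Nat.cast_nonneg _
      have h7 : (1 : ℝ) ≤ (n : ℝ) ^ 2 := one_le_pow₀ h4
      have h8 : ((n - 1 : ℕ) : ℝ) ^ 2 ≤ (n : ℝ) ^ 2 := pow_le_pow_left₀ h5 h3 2
      nlinarith)
    (Pool.Agent.Results.MP_12a1af_nt.SingularSpectrum.result.2 _ sing_const) (by norm_num) (by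
      filter_upwards [hD, hS] with N h1 h2
      have e : ∀ n, (Pool.Agent.Results.MP_12a1af_nt.SingularSpectrum.rep A n : ℝ) = (rep A n : ℝ) := fun n => rfl
      simp only [e]
      linarith)).1 9
  obtain ⟨N, h1, h2, h3⟩ := (key.and_eventually (hD.and (eventually_gt_atTop 0))).exists
  have e : ∀ n, (Pool.Agent.Results.MP_12a1af_nt.SingularSpectrum.rep A n : ℝ) = (rep A n : ℝ) := fun n => rfl
  simp only [e] at h1
  have h4 : ∑ n ∈ range N, (rep A n : ℝ) ^ 2 ≤ 2 * ∑ n ∈ range N, ((rep A n : ℝ) - 2) ^ 2 + 8 * N := by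
    have h5 : ∀ n ∈ range N, (rep A n : ℝ) ^ 2 ≤ 2 * ((rep A n : ℝ) - 2) ^ 2 + 8 := by
      intro n _
      nlinarith [sq_nonneg ((rep A n : ℝ) - 4)]
    have h6 := sum_le_sum h5
    rw [sum_add_distrib, ← mul_sum, sum_const, card_range, nsmul_eq_mul] at h6
    linarith
  have h5 : (0 : ℝ) < N := by exact_mod_cast h3
  linarith

end Pool.Agent.V5helper55.NC
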